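import Pool.Agent.Helper55.CB.Amm

set_option autoImplicit false

/-!
# The class `2 a ≤ b`, `c < 0`, `ds = -1`
-/

namespace Helper55.CB

open Helper25.KG Helper25.KW Helper55.KE Helper11.CT

theorem cb_m1_m1 : CB (-1) (-1) := by
  intro p a b c J l q D dl Cl W hc h0 h1 hC _ hA _ _ _ _ _
  obtain ⟨N, X, R, I, m, hK, hM, hm, hcas⟩ := hC
  have c1 : (1 : ℝ) ≤ -c := by exact_mod_cast (by omega : 1 ≤ -c)
  have b1 : 1 ≤ 1 - 2 * (a : ℝ) + b := by exact_mod_cast (by omega : 1 ≤ 1 - 2 * a + b)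
  rcases hcas with ⟨g, rfl⟩ | ⟨g, rfl⟩ | ⟨g, rfl⟩
  · refine a_V_m1_m1 W hc hA hK hM c1 b1 ?_ ?_
    · push_cast at hm
      linarith
    · exact_mod_cast (by omega : 1 ≤ a - b - R)
  · refine a_D_m1_m1 W hc hA hK hM c1 b1 ?_ ?_
    · push_cast at hm
      linarith
    · exact_mod_cast (by omega : 1 ≤ -a + b + R)
  · refine a_C_m1_m1 W hc hA hK hM c1 b1 ?_ ?_ ?_
    · push_cast at hm
      linarith
    · exact_mod_cast (by omega : 1 ≤ 1 + a - b - R)
    · exact_mod_cast (by omega : 1 ≤ 1 - a + b + R)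

end Helper55.CB
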