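import Pool.Agent.Helper55.CB.A11

set_option autoImplicit false

/-!
# The class `2 a ≤ b`, `c > 0`, `ds = 1`
-/

namespace Helper55.CB

open Helper25.KG Helper25.KW Helper55.KE Helper11.CT

theorem cb_1_1 : CB 1 1 := by
  intro p a b c J l q D dl Cl W hc h0 h1 hC _ hA _ _ _ hF _
  obtain ⟨N, X, R, I, m, hK, hM, hm, hcas⟩ := hC
  have c1 : (1 : ℝ) ≤ c := by exact_mod_cast (by omega : 1 ≤ c)
  have b1 : 1 ≤ 1 - 2 * (a : ℝ) + b := by exact_mod_cast (by omega : 1 ≤ 1 - 2 * a + b)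
  rcases hcas with ⟨g, rfl⟩ | ⟨g, rfl⟩ | ⟨g, rfl⟩
  · refine a_V_1_1 W hc hA hK hM c1 b1 ?_ ?_
    · push_cast at hm
      linarith
    · exact_mod_cast (by omega : 1 ≤ a - b + R)
  · refine a_D_1_1 W hc hA hK hM c1 b1 ?_ ?_
    · push_cast at hm
      linarith
    · exact_mod_cast (by omega : 1 ≤ -a + b - R)
  · obtain ⟨Nu, Xu, Ru, Iu, hu, i0, iD, h⟩ := Helper55.TR.el_1_1 W hF h1 (by omega)
    have r1 : 1 ≤ 1 + (a : ℝ) - b + R := by exact_mod_cast (by omega : 1 ≤ 1 + a - b + R)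
    have r2 : 1 ≤ 1 - (a : ℝ) + b - R := by exact_mod_cast (by omega : 1 ≤ 1 - a + b - R)
    have hm' : 0 < -(b : ℝ) - X + D - I := by
      push_cast at hm
      linarith
    rcases h with ⟨g1, g2, g3, g4, g5⟩ | ⟨g1, g2, g3, g4, g5⟩ | ⟨g1, g2, g3, g4, g5⟩ |
      ⟨g1, g2, g3, g4, g5, g6⟩ | ⟨g1, g2, g3, g4, g5⟩ | ⟨g1, g2, g3, g4, g5, g6⟩
    · refine a_TD_1_1_10 W hc hA hu c1 b1 i0 ?_ ?_ ?_ ?_ ?_ ?_ <;> linarith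
    · refine a_C_1_1_t20 W hc hA hK hM hu c1 b1 i0 ?_ ?_ ?_ ?_ ?_ ?_ hm' r1 r2 <;> linarith
    · refine a_TD_1_1_31 W hc hA hu c1 b1 i0 ?_ ?_ ?_ ?_ ?_ ?_ <;> linarith
    · refine a_TD_1_1_32 W hc hA hu c1 b1 i0 ?_ ?_ ?_ ?_ ?_ ?_ ?_ <;> linarith
    · refine a_C_1_1_t41 W hc hA hK hM hu c1 b1 i0 ?_ ?_ ?_ ?_ ?_ ?_ hm' r1 r2 <;> linarith
    · refine a_TD_1_1_42 W hc hA hu c1 b1 i0 ?_ ?_ ?_ ?_ ?_ ?_ ?_ <;> linarith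

end Helper55.CB
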