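import Pool.Agent.Helper55.CB.D_1_1_p0
import Pool.Agent.Helper55.CB.D_1_1_p1
import Pool.Agent.Helper55.CB.D_1_1_p2
import Pool.Agent.Helper55.CB.D_1_1_p3

set_option autoImplicit false
set_option linter.all false

namespace Helper55.CB.D_1_1

open Helper25.KG Helper25.KW Helper55.KE Helper11.CT

noncomputable def t5 : Tre :=
  .Q [0,0,1,0,-1,0,0,0,1,0,0,1] (.p true [0,0,0,0,1] [] (⟨0,[(9,0)]⟩,⟨0,[(8,0)]⟩) .k 0 (⟨0,[]⟩,⟨0,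
  []⟩) .k .k) t3 t4

theorem ok5 : chk K t5 r3 = true :=
  chk_Q (e' := [0,0,-1,0,1,0,0,0,-1,0,0,-1]) (by decide +kernel) (by decide +kernel) ok3 ok4

noncomputable def t6 : Tre :=
  .Q [0,0,0,1,0,0,0,0,-1,0,0,-1] (.p false [0,0,0,0,1] [] (⟨0,[(8,0)]⟩,⟨0,[(7,0)]⟩) .k 0 (⟨0,[]⟩,⟨0,
  []⟩) .k .k) t2 t5

theorem ok6 : chk K t6 r2 = true :=
  chk_Q (e' := [0,0,0,-1,0,0,0,0,1,0,0,1]) (by decide +kernel) (by decide +kernel) ok2 ok5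

noncomputable def t7 : Tre :=
  .Q [-1,0,0,1,0,0,0,0,-1,0,0,-1] (.p false [0,0,0,0,1] [] (⟨0,[(7,0)]⟩,⟨0,[(6,0)]⟩) .k 0 (⟨0,[]⟩,
  ⟨0,[]⟩) .k .k) t1 t6

theorem ok7 : chk K t7 r1 = true :=
  chk_Q (e' := [1,0,0,-1,0,0,0,0,1,0,0,1]) (by decide +kernel) (by decide +kernel) ok1 ok6

noncomputable def t8 : Tre :=
  .Q [1,0,0,0,-1,0,0,0,1,0,0,1] (.p true [0,0,0,0,1] [] (⟨0,[(6,0)]⟩,⟨0,[(5,0)]⟩) .k 0 (⟨0,[]⟩,⟨0,
  []⟩) .k .k) t0 t7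

theorem ok8 : chk K t8 l0 = true :=
  chk_Q (e' := [-1,0,0,0,1,0,0,0,-1,0,0,-1]) (by decide +kernel) (by decide +kernel) ok0 ok7

noncomputable def t16 : Tre :=
  .Q [1,0,0,-1,0,0,0,0,1,0,0,1] (.p true [0,0,0,0,1] [] (⟨0,[(14,0)]⟩,⟨0,[(13,0)]⟩) .k 0 (⟨0,[]⟩,⟨0,
  []⟩) .k .k) t14 t15

theorem ok16 : chk K t16 r12 = true :=
  chk_Q (e' := [-1,0,0,1,0,0,0,0,-1,0,0,-1]) (by decide +kernel) (by decide +kernel) ok14 ok15

noncomputable def t17 : Tre :=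
  .I [0,0,0,0,-1,0,0,-2] t13 t16

theorem ok17 : chk K t17 r11 = true :=
  chk_I (e' := [1,0,0,0,1,0,0,2]) (by decide +kernel) (by decide +kernel) ok13 ok16

noncomputable def t18 : Tre :=
  .Q [1,0,0,0,-1,0,0,0,1,0,0,1] (.p true [0,0,0,0,1] [] (⟨0,[(12,0)]⟩,⟨0,[(11,0)]⟩) .k 0 (⟨0,[]⟩,⟨0,
  []⟩) .k .k) t12 t17

theorem ok18 : chk K t18 r10 = true :=
  chk_Q (e' := [-1,0,0,0,1,0,0,0,-1,0,0,-1]) (by decide +kernel) (by decide +kernel) ok12 ok17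

noncomputable def t19 : Tre :=
  .Q [0,0,0,0,0,0,-1,0,0,0,-1] (.p false [0,0,1] [] (⟨0,[(17,0)]⟩,⟨0,[(16,0)]⟩) .k 0 (⟨0,[]⟩,⟨0,
  []⟩) .k .k) t11 t18

theorem ok19 : chk K t19 l9 = true :=
  chk_Q (e' := [0,0,0,0,0,0,1,0,0,0,1]) (by decide +kernel) (by decide +kernel) ok11 ok18

noncomputable def t21 : Tre :=
  .Q [0,0,0,0,0,-1,0,0,0,0,1] (.ed false [1,-1,1] .k) t19 t20

theorem ok21 : chk K t21 r8 = true :=
  chk_Q (e' := [0,0,0,0,0,1,0,0,0,0,-1]) (by decide +kernel) (by decide +kernel) ok19 ok20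

noncomputable def t22 : Tre :=
  .Q [0,0,2,-1,-1,0,0,0,0,1] (.pp false [-1,1]) t10 t21

theorem ok22 : chk K t22 l7 = true :=
  chk_Q (e' := [0,0,-2,1,1,0,0,0,0,-1]) (by decide +kernel) (by decide +kernel) ok10 ok21

noncomputable def t24 : Tre :=
  .I [0,0,0,0,0,0,0,-1] t22 t23

theorem ok24 : chk K t24 l6 = true :=
  chk_I (e' := [1,0,0,0,0,0,0,1]) (by decide +kernel) (by decide +kernel) ok22 ok23

noncomputable def t33 : Tre :=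
  .Q [0,-1,0,-1,0,0,-1,-1,0,1,-1] (.p false [0,0,1] [1] (⟨0,[(31,0)]⟩,⟨0,[(30,0)]⟩) .k 1 (⟨0,[]⟩,⟨0,
  []⟩) .k .k) t31 t32

theorem ok33 : chk K t33 l30 = true :=
  chk_Q (e' := [0,1,0,1,0,0,1,1,0,-1,1]) (by decide +kernel) (by decide +kernel) ok31 ok32

noncomputable def t35 : Tre :=
  .I [0,-1,0,0,0,0,0,-1] t33 t34

theorem ok35 : chk K t35 l29 = true :=
  chk_I (e' := [1,1,0,0,0,0,0,1]) (by decide +kernel) (by decide +kernel) ok33 ok34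

noncomputable def t37 : Tre :=
  .I [0,0,-1,-1,1,0,0,2] t35 t36

theorem ok37 : chk K t37 l28 = true :=
  chk_I (e' := [1,0,1,1,-1,0,0,-2]) (by decide +kernel) (by decide +kernel) ok35 ok36

noncomputable def t39 : Tre :=
  .Q [0,0,0,0,0,-1,0,0,0,0,1] (.ed false [1,-1,1] .k) t37 t38

theorem ok39 : chk K t39 l27 = true :=
  chk_Q (e' := [0,0,0,0,0,1,0,0,0,0,-1]) (by decide +kernel) (by decide +kernel) ok37 ok38

noncomputable def t41 : Tre :=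
  .Q [0,0,0,-1,0,0,1,0,0,0,1] (.p true [0,0,1] [] (⟨0,[(27,0)]⟩,⟨0,[(26,0)]⟩) .k 0 (⟨0,[]⟩,⟨0,[]⟩)
  .k .k) t39 t40

theorem ok41 : chk K t41 r26 = true :=
  chk_Q (e' := [0,0,0,1,0,0,-1,0,0,0,-1]) (by decide +kernel) (by decide +kernel) ok39 ok40

noncomputable def t42 : Tre :=
  .I [0,1,-1,-1,0,0,0,-1] t30 t41

theorem ok42 : chk K t42 r25 = true :=
  chk_I (e' := [1,-1,1,1,0,0,0,1]) (by decide +kernel) (by decide +kernel) ok30 ok41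

noncomputable def t43 : Tre :=
  .Q [0,0,0,0,0,2,0,0,0,-1,1] (.p true [0,0,1] [1] (⟨0,[(25,0)]⟩,⟨0,[(24,0)]⟩) .k 1 (⟨0,[]⟩,⟨0,[]⟩)
  .k .k) t29 t42

theorem ok43 : chk K t43 l24 = true :=
  chk_Q (e' := [0,0,0,0,0,-2,0,0,0,1,-1]) (by decide +kernel) (by decide +kernel) ok29 ok42

noncomputable def t45 : Tre :=
  .Q [0,0,0,-1,0,0,-1,-1,0,0,-1] (.p false [0,0,1] [] (⟨0,[(24,0)]⟩,⟨0,[(23,0)]⟩) .k 0 (⟨0,[]⟩,⟨0,
  []⟩) .k .k) t43 t44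

theorem ok45 : chk K t45 r23 = true :=
  chk_Q (e' := [0,0,0,1,0,0,1,1,0,0,1]) (by decide +kernel) (by decide +kernel) ok43 ok44

noncomputable def t46 : Tre :=
  .I [0,1,0,0,0,0,0,1] t28 t45

theorem ok46 : chk K t46 r22 = true :=
  chk_I (e' := [1,-1,0,0,0,0,0,-1]) (by decide +kernel) (by decide +kernel) ok28 ok45

noncomputable def t47 : Tre :=
  .I [0,0,-1,0,0,0,0,-1] t27 t46

theorem ok47 : chk K t47 l21 = true :=
  chk_I (e' := [1,0,1,0,0,0,0,1]) (by decide +kernel) (by decide +kernel) ok27 ok46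

noncomputable def t49 : Tre :=
  .Q [0,1,0,-1,0,0,-1,-1,0,0,-1] (.p false [0,0,1] [] (⟨0,[(21,0)]⟩,⟨0,[(20,0)]⟩) .k 0 (⟨0,[]⟩,⟨0,
  []⟩) .k .k) t47 t48

theorem ok49 : chk K t49 l20 = true :=
  chk_Q (e' := [0,-1,0,1,0,0,1,1,0,0,1]) (by decide +kernel) (by decide +kernel) ok47 ok48

noncomputable def t57 : Tre :=
  .I [0,0,-2,0,1,-2,-1] t55 t56

theorem ok57 : chk K t57 r42 = true :=
  chk_I (e' := [1,0,2,0,-1,2,1]) (by decide +kernel) (by decide +kernel) ok55 ok56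

noncomputable def t58 : Tre :=
  .I [1,1,-1,-2,0,0,0,-2] t54 t57

theorem ok58 : chk K t58 l41 = true :=
  chk_I (e' := [0,-1,1,2,0,0,0,2]) (by decide +kernel) (by decide +kernel) ok54 ok57

noncomputable def t60 : Tre :=
  .Q [0,-1,0,0,1,0,2,2,0,-2,2] (.p true [0,0,1] [2,-1,-1] (⟨0,[(30,0)]⟩,⟨0,[(29,0)]⟩) .k 2 (⟨0,[(29,
  0),(2,0)]⟩,⟨0,[(9,0)]⟩) .k (.r (-1) ⟨2,[(4,1),(2,3),(17,1),(12,0)]⟩ ⟨2,[(3,1),(15,1)]⟩)) t58 t59

theorem ok60 : chk K t60 l40 = true :=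
  chk_Q (e' := [0,1,0,0,-1,0,-2,-2,0,2,-2]) (by decide +kernel) (by decide +kernel) ok58 ok59

noncomputable def t62 : Tre :=
  .I [0,0,2,0,0,2,1] t60 t61

theorem ok62 : chk K t62 l39 = true :=
  chk_I (e' := [1,0,-2,0,0,-2,-1]) (by decide +kernel) (by decide +kernel) ok60 ok61

noncomputable def t64 : Tre :=
  .I [0,-1,0,0,0,0,0,-1] t62 t63

theorem ok64 : chk K t64 l38 = true :=
  chk_I (e' := [1,1,0,0,0,0,0,1]) (by decide +kernel) (by decide +kernel) ok62 ok63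

noncomputable def t66 : Tre :=
  .Q [0,0,-1,-1,1,0,2,1,0,-2,2] (.p true [0,0,1] [2,-1,-1] (⟨0,[(27,0)]⟩,⟨0,[(26,0)]⟩) .k 2 (⟨0,
  [(26,0),(2,0)]⟩,⟨0,[(6,0)]⟩) .k (.r (-1) ⟨2,[(1,1),(2,3),(17,1),(12,0)]⟩ ⟨2,[(0,1),(15,1)]⟩)) t64
  t65

theorem ok66 : chk K t66 r37 = true :=
  chk_Q (e' := [0,0,1,1,-1,0,-2,-1,0,2,-2]) (by decide +kernel) (by decide +kernel) ok64 ok65

noncomputable def t67 : Tre :=
  .I [1,-1,1,0,0,0,0,2] t53 t66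

theorem ok67 : chk K t67 r36 = true :=
  chk_I (e' := [0,1,-1,0,0,0,0,-2]) (by decide +kernel) (by decide +kernel) ok53 ok66

noncomputable def t68 : Tre :=
  .Q [0,0,2,0,-1,0,1,0,0,0,1] (.p true [0,0,1] [] (⟨0,[(25,0)]⟩,⟨0,[(24,0)]⟩) .k 0 (⟨0,[]⟩,⟨0,[]⟩)
  .k .k) t52 t67

theorem ok68 : chk K t68 r35 = true :=
  chk_Q (e' := [0,0,-2,0,1,0,-1,0,0,0,-1]) (by decide +kernel) (by decide +kernel) ok52 ok67

noncomputable def t69 : Tre :=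
  .Q [0,0,0,1,0,0,-1,-1,0,0,-1] (.p false [0,0,1] [] (⟨0,[(24,0)]⟩,⟨0,[(23,0)]⟩) .k 0 (⟨0,[]⟩,⟨0,
  []⟩) .k .k) t51 t68

theorem ok69 : chk K t69 l34 = true :=
  chk_Q (e' := [0,0,0,-1,0,0,1,1,0,0,1]) (by decide +kernel) (by decide +kernel) ok51 ok68

noncomputable def t71 : Tre :=
  .Q [0,1,0,-1,0,0,1,1,0,0,1] (.p true [0,0,1] [] (⟨0,[(23,0)]⟩,⟨0,[(22,0)]⟩) .k 0 (⟨0,[]⟩,⟨0,[]⟩)
  .k .k) t69 t70

theorem ok71 : chk K t71 r33 = true :=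
  chk_Q (e' := [0,-1,0,1,0,0,-1,-1,0,0,-1]) (by decide +kernel) (by decide +kernel) ok69 ok70

noncomputable def t72 : Tre :=
  .I [1,0,-1,0,0,0,0,-1] t50 t71

theorem ok72 : chk K t72 l32 = true :=
  chk_I (e' := [0,0,1,0,0,0,0,1]) (by decide +kernel) (by decide +kernel) ok50 ok71

noncomputable def t74 : Tre :=
  .I [1,-1,0,0,0,0,0,-1] t72 t73

theorem ok74 : chk K t74 r20 = true :=
  chk_I (e' := [0,1,0,0,0,0,0,1]) (by decide +kernel) (by decide +kernel) ok72 ok73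

noncomputable def t75 : Tre :=
  .Q [0,0,0,0,0,-1,0,0,0,1,-1] (.ed true [0,1,1] .k) t49 t74

theorem ok75 : chk K t75 r19 = true :=
  chk_Q (e' := [0,0,0,0,0,1,0,0,0,-1,1]) (by decide +kernel) (by decide +kernel) ok49 ok74

noncomputable def t76 : Tre :=
  .I [0,1,2,2,-1] t26 t75

theorem ok76 : chk K t76 l18 = true :=
  chk_I (e' := [1,-1,-2,-2,1]) (by decide +kernel) (by decide +kernel) ok26 ok75

noncomputable def t78 : Tre :=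
  .Q [0,0,-2,0,1,0,0,0,0,-1] (.pp true [-1,1]) t76 t77

theorem ok78 : chk K t78 r17 = true :=
  chk_Q (e' := [0,0,2,0,-1,0,0,0,0,1]) (by decide +kernel) (by decide +kernel) ok76 ok77

noncomputable def t79 : Tre :=
  .Q [0,0,2,-1,-1,0,0,0,0,1] (.pp false [-1,1]) t25 t78

theorem ok79 : chk K t79 l16 = true :=
  chk_Q (e' := [0,0,-2,1,1,0,0,0,0,-1]) (by decide +kernel) (by decide +kernel) ok25 ok78

noncomputable def t81 : Tre :=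
  .Q [0,0,0,0,0,0,1,0,0,0,1] (.p true [0,0,1] [] (⟨0,[(16,0)]⟩,⟨0,[(15,0)]⟩) .k 0 (⟨0,[]⟩,⟨0,[]⟩)
  .k .k) t79 t80

theorem ok81 : chk K t81 l15 = true :=
  chk_Q (e' := [0,0,0,0,0,0,-1,0,0,0,-1]) (by decide +kernel) (by decide +kernel) ok79 ok80

noncomputable def t83 : Tre :=
  .I [0,0,0,0,0,0,0,-1] t81 t82

theorem ok83 : chk K t83 l14 = true :=
  chk_I (e' := [1,0,0,0,0,0,0,1]) (by decide +kernel) (by decide +kernel) ok81 ok82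

noncomputable def t85 : Tre :=
  .I [0,0,-2,-2,1] t83 t84

theorem ok85 : chk K t85 r6 = true :=
  chk_I (e' := [1,0,2,2,-1]) (by decide +kernel) (by decide +kernel) ok83 ok84

noncomputable def t86 : Tre :=
  .Q [0,0,0,0,0,2,0,0,0,-1] (.pp true [-1,1]) t24 t85

theorem ok86 : chk K t86 r5 = true :=
  chk_Q (e' := [0,0,0,0,0,-2,0,0,0,1]) (by decide +kernel) (by decide +kernel) ok24 ok85

noncomputable def t87 : Tre :=
  .I [0,0,2,2,-1] t9 t86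

theorem ok87 : chk K t87 r0 = true :=
  chk_I (e' := [1,0,-2,-2,1]) (by decide +kernel) (by decide +kernel) ok9 ok86

noncomputable def t88 : Tre :=
  .I [0,0,0,0,0,0,0,1] t8 t87

theorem ok88 : chk K t88 base = true :=
  chk_I (e' := [1,0,0,0,0,0,0,-1]) (by decide +kernel) (by decide +kernel) ok8 ok87

theorem closed {p a b c J l q : ℤ} {D dl : ℝ} {Cl : ℤ → ℤ → ℤ → ℤ → ℝ → Prop}
    (W : World p a b c J 1 l q D dl Cl) (g : G0 p a b c J D)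
    {N X R : ℤ} {I : ℝ} (hk : KCl p l Cl N X R I) (kz : KF a b D (X + (1 : ℤ) * I) (X + (1 : ℤ) * I + R) I)
    {Ne Xe : ℤ} {Ie : ℝ} (he : EFac p 1 D Cl 1 Ne Xe Ie)
    (hkf : ∀ kf ∈ (kfM 1 [0,0,0,0,0,0,1,0,0,0,1] [0,0,0,0,0,0,1,1,0,0,1] true), KOk p l Cl 1
      (xv [1, a, b, c, p, J, X, R, Xe] [D, I, Ie]) N kf)
    (h0 : 1 ≤ (c : ℝ))
    (h1 : 1 ≤ 1 - 2 * (a : ℝ) + (b : ℝ))
    (h2 : 0 < -(a : ℝ) - (X : ℝ) - (R : ℝ) + D - I)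
    (h3 : 1 ≤ -(a : ℝ) + (b : ℝ) - (R : ℝ)) : False := by
  have g1 := g.a2
  have g2 := g.b2
  have g3 := g.pa
  have g4 := g.pb
  have g5 := g.J1
  have g6 := g.JD
  have g7 := g.D2
  have g8 := g.ca
  have g9 := g.ca'
  have k1 := kz.I0
  have k2 := kz.ID
  have k3 := kz.z1
  have k4 := kz.z2
  have k5 := kz.s1
  have k6 := kz.s2
  have e1 := he.I0
  have e2 := he.ID
  have e3 := he.x0
  have e4 := he.xp
  push_cast at *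
  refine (val_E W.toBase hk he (row := [1]) (by simp) (by simp) (kfM 1 [0,0,0,0,0,0,1,0,0,0,1] [0,0,0,0,0,0,1,1,0,0,1] true)).sound W rfl (Nk := N)
    (fun kf _ _ => ⟨_, rfl⟩) hkf ?_ ok88
  · simp only [base, List.forall_mem_cons, List.not_mem_nil, false_imp_iff, implies_true,
      and_true, hld, xv, evg_cons, evg_nil, List.map_cons, List.map_nil, List.cons_append,
      List.nil_append, if_true, if_false, Bool.false_eq_true]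
    push_cast
    refine ⟨?_, ?_, ?_, ?_, ?_, ?_, ?_, ?_, ?_, ?_, ?_, ?_, ?_, ?_, ?_, ?_, ?_, ?_, ?_, ?_, ?_, ?_⟩ <;> linarith

end Helper55.CB.D_1_1
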