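import Pool.Agent.Helper25.KG.S1b
import Pool.Agent.Helper11.CT.Clo

set_option autoImplicit false
set_option linter.all false

namespace Helper55.CB.TD_1_1_10

open Helper25.KG Helper25.KW Helper55.KE Helper11.CT

noncomputable def K : Cls :=
  cK 1 []

noncomputable def base : List Con :=
  [(false,[0,1,0,0,0,0,-1,-1,0,-1]),
  (false,[0,-1,0,1,0,0,1,1,0,1]),
  (true,[1,0,0,-1,0,0,0,1]),
  (false,[0,0,0,0,0,0,1,0,0,1]),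
  (false,[0,0,0,0,0,-1,0,0,1,-1]),
  (false,[0,0,0,0,0,0,0,0,1,-1]),
  (false,[0,0,0,0,0,0,0,0,0,1]),
  (false,[0,0,0,0,1,0,0,0,-2]),
  (false,[0,0,0,0,0,-1,0,0,1]),
  (true,[0,0,0,0,0,1]),
  (true,[1,-2,1]),
  (true,[0,1,0,-1]),
  (true,[0,0,0,1]),
  (true,[0,0,-2,0,1]),
  (true,[0,-2,0,0,1]),
  (true,[-1,0,1]),
  (true,[-1,1])]

noncomputable def t0 : Tre :=
  (.R ⟨2,true,false,false,[0,1],[0,1,1],[1,0,1],(⟨0,[]⟩,⟨0,[]⟩),(⟨0,[(6,0),(2,0)]⟩,⟨0,[(4,0)]⟩),⟨0,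
  []⟩,.k,.k,.k,.k,.k,.k,⟨false,1,⟨0,[(0,0),(2,0),(6,0),(0,0),(1,0)]⟩,⟨0,[(2,0),(9,1)]⟩⟩,⟨true,0,⟨0,
  [(3,0)]⟩,⟨1,[(0,1),(1,1),(7,0),(1,1),(2,0)]⟩⟩,⟨false,1,⟨0,[(11,0),(2,0)]⟩,⟨0,[(12,0)]⟩⟩,⟨true,0,
  ⟨0,[(1,0),(9,0)]⟩,⟨0,[(0,0)]⟩⟩,⟨true,0,⟨0,[]⟩,⟨0,[(16,0)]⟩⟩,⟨false,0,⟨0,[(1,0)]⟩,⟨0,[(0,0),(10,0),
  (2,0)]⟩⟩,[]⟩)

theorem ok0 : chk K t0 base = true := by decide +kernel

theorem closed {p a b c J l q : ℤ} {D dl : ℝ} {Cl : ℤ → ℤ → ℤ → ℤ → ℝ → Prop}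
    (W : World p a b c J 1 l q D dl Cl) (g : G0 p a b c J D)
    {N X R : ℤ} {I : ℝ} (hk : KCl p l Cl N X R I)
    (hkf : ∀ kf ∈ [], KOk p l Cl 1
      (xv [1, a, b, c, p, J, X, R] [D, I]) N kf)
    (h0 : 1 ≤ (c : ℝ))
    (h1 : 1 ≤ 1 - 2 * (a : ℝ) + (b : ℝ))
    (h2 : 0 < I)
    (h3 : 0 < D - I)
    (h4 : 0 < -(J : ℝ) + D - I)
    (h5 : 0 < (X : ℝ) + I)
    (h6 : 1 ≤ 1 - (c : ℝ) + (R : ℝ))
    (h7 : 0 < -(a : ℝ) + (c : ℝ) + (X : ℝ) + (R : ℝ) + I)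
    (h8 : 0 < (a : ℝ) - (X : ℝ) - (R : ℝ) - I) : False := by
  have g1 := g.a2
  have g2 := g.b2
  have g3 := g.pa
  have g4 := g.pb
  have g5 := g.J1
  have g6 := g.JD
  have g7 := g.D2
  have g8 := g.ca
  have g9 := g.ca'
  push_cast at *
  refine (val_K W.toBase hk []).sound W rfl (Nk := N)
    (fun kf _ _ => ⟨_, rfl⟩) hkf ?_ ok0
  · simp only [base, List.forall_mem_cons, List.not_mem_nil, false_imp_iff, implies_true,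
      and_true, hld, xv, evg_cons, evg_nil, List.map_cons, List.map_nil, List.cons_append,
      List.nil_append, if_true, if_false, Bool.false_eq_true]
    push_cast
    refine ⟨?_, ?_, ?_, ?_, ?_, ?_, ?_, ?_, ?_, ?_, ?_, ?_, ?_, ?_, ?_, ?_, ?_⟩ <;> linarith

end Helper55.CB.TD_1_1_10
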