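import Pool.Agent.Helper81.PC.Sound
import Pool.Agent.Helper25.KG.S1b
import Pool.Agent.Helper11.CT.Clo

set_option autoImplicit false
set_option linter.all false

namespace Helper55.CB.TD_1_1_31

open Helper25.KG Helper25.KW Helper55.KE Helper11.CT

noncomputable def K : Cls :=
  cK 1 []

noncomputable def base : List Con :=
  [(false,[0,0,0,0,0,0,1,0,0,1]),
  (false,[0,1,0,0,0,0,1,1,-1,1]),
  (true,[1,0,0,-1,0,0,0,-1]),
  (false,[0,0,0,0,0,0,-1,0,1,-1]),
  (false,[0,0,0,0,0,1,0,0,0,-1]),
  (false,[0,0,0,0,0,0,0,0,1,-1]),
  (false,[0,0,0,0,0,0,0,0,0,1]),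
  (false,[0,0,0,0,1,0,0,0,-2]),
  (false,[0,0,0,0,0,-1,0,0,1]),
  (true,[0,0,0,0,0,1]),
  (true,[1,-2,1]),
  (true,[0,1,0,-1]),
  (true,[0,0,0,1]),
  (true,[0,0,-2,0,1]),
  (true,[0,-2,0,0,1]),
  (true,[-1,0,1]),
  (true,[-1,1])]

open Helper55.PC in
noncomputable def t0n : Helper55.PC.Ten :=
  (q 50088845731745722403483967471345003525331615754 (s
  40439257926911034295564438491156498385696390908957237832535800932091591493707920222252473245406845127487496296512458475966667878078000256615498457421268821227235820219962878770864447139972262806373833780684600666302828726916928163535444102361278949919789001303129806744880219991030034853061464608623507965480244919634787059042872083404081045703745428408332778396337219282214797213510583747227721620826123128815375616692075966291691818132766711527772318263040670797136385)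
  (r
  187299274246435906951000308733631891904066267549499514630989162056044887398354271115565972549926098228458156724625694280428645763139761131734845622812786624709157022176508736068118803280220619418560355889626978648645148794417707275770219889561570043278900601741968582636349220268942987532021704536747902505680974386531758422908681448191606641244605086644268545450120320912820365848420573846734318590228708866982215296541606344212916083099350644291244880988488538582313795975147263876665264246354699679856188549474511185822072165283431966269539885280))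

noncomputable def t0 : Tre := Helper55.PC.toT t0n

theorem ok0 : chk K t0 base = true :=
  Helper55.PC.chkN_sound K t0n base (by decide +kernel)

theorem closed {p a b c J l q : ℤ} {D dl : ℝ} {Cl : ℤ → ℤ → ℤ → ℤ → ℝ → Prop}
    (W : World p a b c J 1 l q D dl Cl) (g : G0 p a b c J D)
    {N X R : ℤ} {I : ℝ} (hk : KCl p l Cl N X R I)
    (hkf : ∀ kf ∈ [], KOk p l Cl 1
      (xv [1, a, b, c, p, J, X, R] [D, I]) N kf)
    (h0 : 1 ≤ (c : ℝ))
    (h1 : 1 ≤ 1 - 2 * (a : ℝ) + (b : ℝ))
    (h2 : 0 < I)
    (h3 : 0 < D - I)
    (h4 : 0 < (J : ℝ) - I)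
    (h5 : 0 < -(X : ℝ) + D - I)
    (h6 : 1 ≤ 1 - (c : ℝ) - (R : ℝ))
    (h7 : 0 < (a : ℝ) + (X : ℝ) + (R : ℝ) - D + I)
    (h8 : 0 < (X : ℝ) + I) : False := by
  have g1 := g.a2
  have g2 := g.b2
  have g3 := g.pa
  have g4 := g.pb
  have g5 := g.J1
  have g6 := g.JD
  have g7 := g.D2
  have g8 := g.ca
  have g9 := g.ca'
  push_cast at *
  refine (val_K W.toBase hk []).sound W rfl (Nk := N)
    (fun kf _ _ => ⟨_, rfl⟩) hkf ?_ ok0
  · simp only [base, List.forall_mem_cons, List.not_mem_nil, false_imp_iff, implies_true,
      and_true, hld, xv, evg_cons, evg_nil, List.map_cons, List.map_nil, List.cons_append,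
      List.nil_append, if_true, if_false, Bool.false_eq_true]
    push_cast
    refine ⟨?_, ?_, ?_, ?_, ?_, ?_, ?_, ?_, ?_, ?_, ?_, ?_, ?_, ?_, ?_, ?_, ?_⟩ <;> linarith

end Helper55.CB.TD_1_1_31
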