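import Pool.Agent.Helper81.PC.Sound
import Pool.Agent.Helper25.KG.S1b
import Pool.Agent.Helper11.CT.Clo

set_option autoImplicit false
set_option linter.all false

namespace Helper55.CB.TD_1_1_42

open Helper25.KG Helper25.KW Helper55.KE Helper11.CT

noncomputable def K : Cls :=
  cK 1 []

noncomputable def base : List Con :=
  [(false,[0,0,0,0,0,0,-1,-1,1,-1]),
  (true,[1,1,0,-1,0,0,0,-1]),
  (false,[0,0,0,-1,0,0,1,1,0,1]),
  (true,[1,1,0,0,0,0,0,-1]),
  (false,[0,0,0,0,0,0,-1,0,0,-1]),
  (false,[0,0,0,0,0,1,0,0,0,-1]),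
  (false,[0,0,0,0,0,0,0,0,1,-1]),
  (false,[0,0,0,0,0,0,0,0,0,1]),
  (false,[0,0,0,0,1,0,0,0,-2]),
  (false,[0,0,0,0,0,-1,0,0,1]),
  (true,[0,0,0,0,0,1]),
  (true,[1,-2,1]),
  (true,[0,1,0,-1]),
  (true,[0,0,0,1]),
  (true,[0,0,-2,0,1]),
  (true,[0,-2,0,0,1]),
  (true,[-1,0,1]),
  (true,[-1,1])]

open Helper55.PC in
noncomputable def t0n : Helper55.PC.Ten :=
  (q 190310890042025596917446366564515953377289 (r
  161921163843685628779394031013080409963204943088661968395846233889652536777343049614489151838541189914093981953817265600397109544612147754075354958582747672578227273982172536850284198736902395628755158819632412970721754276617431963540470434679081671445590740260544066311875674258392820176434539793609100640379255742046639765029205122006368948963410989918269770361459806835356296454402141004673156381278319560101166025521016983064593212586735008195042839492222312272126176)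
  (r
  5558395696941748946357205420930575573778455426542444341068102149719938071343363272484445618099501381394665206744037795084447203874211001220826410832569823926114944269332462795659040789017842649492312877138350303811321189336656069334618740023009910386659201440430843486891566814071694395835630548725266126344785744305973780047576071081626861167791547715403377902717243800231113188532341569741948759935695289220842033993762243048312491072191695613711394427018020377440433025675190464))

noncomputable def t0 : Tre := Helper55.PC.toT t0n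

theorem ok0 : chk K t0 base = true :=
  Helper55.PC.chkN_sound K t0n base (by decide +kernel)

theorem closed {p a b c J l q : ℤ} {D dl : ℝ} {Cl : ℤ → ℤ → ℤ → ℤ → ℝ → Prop}
    (W : World p a b c J 1 l q D dl Cl) (g : G0 p a b c J D)
    {N X R : ℤ} {I : ℝ} (hk : KCl p l Cl N X R I)
    (hkf : ∀ kf ∈ [], KOk p l Cl 1
      (xv [1, a, b, c, p, J, X, R] [D, I]) N kf)
    (h0 : 1 ≤ (c : ℝ))
    (h1 : 1 ≤ 1 - 2 * (a : ℝ) + (b : ℝ))
    (h2 : 0 < I)
    (h3 : 0 < D - I)
    (h4 : 0 < (J : ℝ) - I)
    (h5 : 0 < -(X : ℝ) - I)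
    (h6 : 1 ≤ 1 + (a : ℝ) - (R : ℝ))
    (h7 : 0 < -(c : ℝ) + (X : ℝ) + (R : ℝ) + I)
    (h8 : 1 ≤ 1 + (a : ℝ) - (c : ℝ) - (R : ℝ))
    (h9 : 0 < -(X : ℝ) - (R : ℝ) + D - I) : False := by
  have g1 := g.a2
  have g2 := g.b2
  have g3 := g.pa
  have g4 := g.pb
  have g5 := g.J1
  have g6 := g.JD
  have g7 := g.D2
  have g8 := g.ca
  have g9 := g.ca'
  push_cast at *
  refine (val_K W.toBase hk []).sound W rfl (Nk := N)
    (fun kf _ _ => ⟨_, rfl⟩) hkf ?_ ok0
  · simp only [base, List.forall_mem_cons, List.not_mem_nil, false_imp_iff, implies_true,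
      and_true, hld, xv, evg_cons, evg_nil, List.map_cons, List.map_nil, List.cons_append,
      List.nil_append, if_true, if_false, Bool.false_eq_true]
    push_cast
    refine ⟨?_, ?_, ?_, ?_, ?_, ?_, ?_, ?_, ?_, ?_, ?_, ?_, ?_, ?_, ?_, ?_, ?_, ?_⟩ <;> linarith

end Helper55.CB.TD_1_1_42
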