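import Pool.Agent.Helper55.CB.V_1_1
import Pool.Agent.Helper55.CB.D_1_1
import Pool.Agent.Helper55.CB.C_1_1_t20
import Pool.Agent.Helper55.CB.C_1_1_t41
import Pool.Agent.Helper55.CB.TD_1_1_10
import Pool.Agent.Helper55.CB.TD_1_1_31
import Pool.Agent.Helper55.CB.TD_1_1_32
import Pool.Agent.Helper55.CB.TD_1_1_42
import Pool.Agent.Helper25.KW.S1I
import Pool.Agent.Helper55.TR.El

set_option autoImplicit false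
set_option linter.all false

namespace Helper55.CB

open Helper25.KG Helper25.KW Helper55.KE Helper11.CT

theorem a_V_1_1 {p a b c J l q : ℤ} {D dl : ℝ} {Cl : ℤ → ℤ → ℤ → ℤ → ℝ → Prop}
    (W : World p a b c J 1 l q D dl Cl) (hc : -a < c) (hA : Aux p a b 1 D Cl)
    {N X R : ℤ} {I : ℝ} (hK : KGF p a b 1 D (P1 l p) Cl N X R I)
    (hM : KMin p a b 1 (P1 l p) Cl N (b + (1 : ℤ) * (X + (1 : ℤ) * I)))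
    (h0 : 1 ≤ (c : ℝ))
    (h1 : 1 ≤ 1 - 2 * (a : ℝ) + (b : ℝ))
    (h2 : 0 < -(b : ℝ) - (X : ℝ) + D - I)
    (h3 : 1 ≤ (a : ℝ) - (b : ℝ) + (R : ℝ)) : False := by
  have kz := KF.of hK
  obtain ⟨Ne, Xe, Ie, he⟩ := hA.ecl 1 (by
    intro h
    have h2 := W.ha
    have h3 := W.h2a
    have h1 := Int.le_of_dvd (by omega) h
    omega)
  exact Helper55.CB.V_1_1.closed W (G0.of W.toBase hc) (KCl.of hK) kz he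
    (kok_M (R := R) hM rfl (by simp [xv] <;> ring) (by simp [xv] <;> ring) (by simp [xv] <;> ring) (by simp [xv] <;> ring) (by simp [xv] <;> ring) (by simp [xv] <;> ring))
    h0 h1 h2 h3

theorem a_D_1_1 {p a b c J l q : ℤ} {D dl : ℝ} {Cl : ℤ → ℤ → ℤ → ℤ → ℝ → Prop}
    (W : World p a b c J 1 l q D dl Cl) (hc : -a < c) (hA : Aux p a b 1 D Cl)
    {N X R : ℤ} {I : ℝ} (hK : KGF p a b 1 D (P1 l p) Cl N X R I)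
    (hM : KMin p a b 1 (P1 l p) Cl N (a + (1 : ℤ) * (X + (1 : ℤ) * I + R)))
    (h0 : 1 ≤ (c : ℝ))
    (h1 : 1 ≤ 1 - 2 * (a : ℝ) + (b : ℝ))
    (h2 : 0 < -(a : ℝ) - (X : ℝ) - (R : ℝ) + D - I)
    (h3 : 1 ≤ -(a : ℝ) + (b : ℝ) - (R : ℝ)) : False := by
  have kz := KF.of hK
  obtain ⟨Ne, Xe, Ie, he⟩ := hA.ecl 1 (by
    intro h
    have h2 := W.ha
    have h3 := W.h2a
    have h1 := Int.le_of_dvd (by omega) h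
    omega)
  exact Helper55.CB.D_1_1.closed W (G0.of W.toBase hc) (KCl.of hK) kz he
    (kok_M (R := R) hM rfl (by simp [xv] <;> ring) (by simp [xv] <;> ring) (by simp [xv] <;> ring) (by simp [xv] <;> ring) (by simp [xv] <;> ring) (by simp [xv] <;> ring))
    h0 h1 h2 h3

theorem a_C_1_1_t20 {p a b c J l q : ℤ} {D dl : ℝ} {Cl : ℤ → ℤ → ℤ → ℤ → ℝ → Prop}
    (W : World p a b c J 1 l q D dl Cl) (hc : -a < c) (hA : Aux p a b 1 D Cl)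
    {N X R : ℤ} {I : ℝ} (hK : KGF p a b 1 D (P1 l p) Cl N X R I)
    (hM : KMin p a b 1 (P1 l p) Cl N (b + (1 : ℤ) * (X + (1 : ℤ) * I)))
    {Nu Xu Ru : ℤ} {Iu : ℝ} (hu : KCl p l Cl Nu Xu Ru Iu)
    (h0 : 1 ≤ (c : ℝ))
    (h1 : 1 ≤ 1 - 2 * (a : ℝ) + (b : ℝ))
    (h2 : 0 < Iu)
    (h3 : 0 < D - Iu)
    (h4 : 0 < -(J : ℝ) + D - Iu)
    (h5 : 0 < (Xu : ℝ) + Iu)
    (h6 : 1 ≤ 1 + (a : ℝ) + (Ru : ℝ))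
    (h7 : 1 ≤ -(a : ℝ) + (c : ℝ) - (Ru : ℝ))
    (h8 : 0 < -(c : ℝ) - (Xu : ℝ) - (Ru : ℝ) - Iu)
    (h9 : 0 < -(b : ℝ) - (X : ℝ) + D - I)
    (h10 : 1 ≤ 1 + (a : ℝ) - (b : ℝ) + (R : ℝ))
    (h11 : 1 ≤ 1 - (a : ℝ) + (b : ℝ) - (R : ℝ)) : False := by
  have kz := KF.of hK
  exact Helper55.CB.C_1_1_t20.closed W (G0.of W.toBase hc) (KCl.of hK) kz hu 
    (kok_M (R := R) hM rfl (by simp [xv] <;> ring) (by simp [xv] <;> ring) (by simp [xv] <;> ring) (by simp [xv] <;> ring) (by simp [xv] <;> ring) (by simp [xv] <;> ring))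
    h0 h1 h2 h3 h4 h5 h6 h7 h8 h9 h10 h11

theorem a_C_1_1_t41 {p a b c J l q : ℤ} {D dl : ℝ} {Cl : ℤ → ℤ → ℤ → ℤ → ℝ → Prop}
    (W : World p a b c J 1 l q D dl Cl) (hc : -a < c) (hA : Aux p a b 1 D Cl)
    {N X R : ℤ} {I : ℝ} (hK : KGF p a b 1 D (P1 l p) Cl N X R I)
    (hM : KMin p a b 1 (P1 l p) Cl N (b + (1 : ℤ) * (X + (1 : ℤ) * I)))
    {Nu Xu Ru : ℤ} {Iu : ℝ} (hu : KCl p l Cl Nu Xu Ru Iu)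
    (h0 : 1 ≤ (c : ℝ))
    (h1 : 1 ≤ 1 - 2 * (a : ℝ) + (b : ℝ))
    (h2 : 0 < Iu)
    (h3 : 0 < D - Iu)
    (h4 : 0 < (J : ℝ) - Iu)
    (h5 : 0 < -(Xu : ℝ) - Iu)
    (h6 : 1 ≤ 1 + (a : ℝ) - (Ru : ℝ))
    (h7 : 0 < -(c : ℝ) + (Xu : ℝ) + (Ru : ℝ) + Iu)
    (h8 : 1 ≤ -(a : ℝ) + (c : ℝ) + (Ru : ℝ))
    (h9 : 0 < -(b : ℝ) - (X : ℝ) + D - I)
    (h10 : 1 ≤ 1 + (a : ℝ) - (b : ℝ) + (R : ℝ))
    (h11 : 1 ≤ 1 - (a : ℝ) + (b : ℝ) - (R : ℝ)) : False := by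
  have kz := KF.of hK
  exact Helper55.CB.C_1_1_t41.closed W (G0.of W.toBase hc) (KCl.of hK) kz hu 
    (kok_M (R := R) hM rfl (by simp [xv] <;> ring) (by simp [xv] <;> ring) (by simp [xv] <;> ring) (by simp [xv] <;> ring) (by simp [xv] <;> ring) (by simp [xv] <;> ring))
    h0 h1 h2 h3 h4 h5 h6 h7 h8 h9 h10 h11

theorem a_TD_1_1_10 {p a b c J l q : ℤ} {D dl : ℝ} {Cl : ℤ → ℤ → ℤ → ℤ → ℝ → Prop}
    (W : World p a b c J 1 l q D dl Cl) (hc : -a < c) (hA : Aux p a b 1 D Cl)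
    {N X R : ℤ} {I : ℝ} (hk : KCl p l Cl N X R I)
    (h0 : 1 ≤ (c : ℝ))
    (h1 : 1 ≤ 1 - 2 * (a : ℝ) + (b : ℝ))
    (h2 : 0 < I)
    (h3 : 0 < D - I)
    (h4 : 0 < -(J : ℝ) + D - I)
    (h5 : 0 < (X : ℝ) + I)
    (h6 : 1 ≤ 1 - (c : ℝ) + (R : ℝ))
    (h7 : 0 < -(a : ℝ) + (c : ℝ) + (X : ℝ) + (R : ℝ) + I)
    (h8 : 0 < (a : ℝ) - (X : ℝ) - (R : ℝ) - I) : False := by
  exact Helper55.CB.TD_1_1_10.closed W (G0.of W.toBase hc) hk 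
    (kok_nil N)
    h0 h1 h2 h3 h4 h5 h6 h7 h8

theorem a_TD_1_1_31 {p a b c J l q : ℤ} {D dl : ℝ} {Cl : ℤ → ℤ → ℤ → ℤ → ℝ → Prop}
    (W : World p a b c J 1 l q D dl Cl) (hc : -a < c) (hA : Aux p a b 1 D Cl)
    {N X R : ℤ} {I : ℝ} (hk : KCl p l Cl N X R I)
    (h0 : 1 ≤ (c : ℝ))
    (h1 : 1 ≤ 1 - 2 * (a : ℝ) + (b : ℝ))
    (h2 : 0 < I)
    (h3 : 0 < D - I)
    (h4 : 0 < (J : ℝ) - I)
    (h5 : 0 < -(X : ℝ) + D - I)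
    (h6 : 1 ≤ 1 - (c : ℝ) - (R : ℝ))
    (h7 : 0 < (a : ℝ) + (X : ℝ) + (R : ℝ) - D + I)
    (h8 : 0 < (X : ℝ) + I) : False := by
  exact Helper55.CB.TD_1_1_31.closed W (G0.of W.toBase hc) hk 
    (kok_nil N)
    h0 h1 h2 h3 h4 h5 h6 h7 h8

theorem a_TD_1_1_32 {p a b c J l q : ℤ} {D dl : ℝ} {Cl : ℤ → ℤ → ℤ → ℤ → ℝ → Prop}
    (W : World p a b c J 1 l q D dl Cl) (hc : -a < c) (hA : Aux p a b 1 D Cl)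
    {N X R : ℤ} {I : ℝ} (hk : KCl p l Cl N X R I)
    (h0 : 1 ≤ (c : ℝ))
    (h1 : 1 ≤ 1 - 2 * (a : ℝ) + (b : ℝ))
    (h2 : 0 < I)
    (h3 : 0 < D - I)
    (h4 : 0 < (J : ℝ) - I)
    (h5 : 0 < -(X : ℝ) + D - I)
    (h6 : 1 ≤ 1 - (c : ℝ) - (R : ℝ))
    (h7 : 0 < (a : ℝ) + (X : ℝ) + (R : ℝ) - D + I)
    (h8 : 0 < -(a : ℝ) + (c : ℝ) - (X : ℝ) - (R : ℝ) - I)
    (h9 : 0 < -(X : ℝ) - I) : False := by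
  exact Helper55.CB.TD_1_1_32.closed W (G0.of W.toBase hc) hk 
    (kok_nil N)
    h0 h1 h2 h3 h4 h5 h6 h7 h8 h9

theorem a_TD_1_1_42 {p a b c J l q : ℤ} {D dl : ℝ} {Cl : ℤ → ℤ → ℤ → ℤ → ℝ → Prop}
    (W : World p a b c J 1 l q D dl Cl) (hc : -a < c) (hA : Aux p a b 1 D Cl)
    {N X R : ℤ} {I : ℝ} (hk : KCl p l Cl N X R I)
    (h0 : 1 ≤ (c : ℝ))
    (h1 : 1 ≤ 1 - 2 * (a : ℝ) + (b : ℝ))
    (h2 : 0 < I)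
    (h3 : 0 < D - I)
    (h4 : 0 < (J : ℝ) - I)
    (h5 : 0 < -(X : ℝ) - I)
    (h6 : 1 ≤ 1 + (a : ℝ) - (R : ℝ))
    (h7 : 0 < -(c : ℝ) + (X : ℝ) + (R : ℝ) + I)
    (h8 : 1 ≤ 1 + (a : ℝ) - (c : ℝ) - (R : ℝ))
    (h9 : 0 < -(X : ℝ) - (R : ℝ) + D - I) : False := by
  exact Helper55.CB.TD_1_1_42.closed W (G0.of W.toBase hc) hk 
    (kok_nil N)
    h0 h1 h2 h3 h4 h5 h6 h7 h8 h9

end Helper55.CB
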