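import Pool.Agent.Helper55.CB.D_m1_m1_p0
import Pool.Agent.Helper55.CB.D_m1_m1_p1
import Pool.Agent.Helper55.CB.D_m1_m1_p2
import Pool.Agent.Helper55.CB.D_m1_m1_p3

set_option autoImplicit false
set_option linter.all false

namespace Helper55.CB.D_m1_m1

open Helper25.KG Helper25.KW Helper55.KE Helper11.CT

noncomputable def t9 : Tre :=
  .Q [0,0,3,0,-1,0,0,0,0,-1] (.pp true [-1,1]) t7 t8

theorem ok9 : chk K t9 r13 = true :=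
  chk_Q (e' := [0,0,-3,0,1,0,0,0,0,1]) (by decide +kernel) (by decide +kernel) ok7 ok8

noncomputable def t10 : Tre :=
  .Q [0,1,0,-2,0,0,-1,-1,0,-1,1] (.p true [0,0,1] [1] (⟨0,[(24,0)]⟩,⟨0,[(23,0)]⟩) .k 1 (⟨0,[]⟩,⟨0,
  []⟩) .k .k) t6 t9

theorem ok10 : chk K t10 r12 = true :=
  chk_Q (e' := [0,-1,0,2,0,0,1,1,0,1,-1]) (by decide +kernel) (by decide +kernel) ok6 ok9

noncomputable def t11 : Tre :=
  .Q [0,0,0,0,0,2,0,0,0,-1] (.pp true [-1,1]) t5 t10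

theorem ok11 : chk K t11 r11 = true :=
  chk_Q (e' := [0,0,0,0,0,-2,0,0,0,1]) (by decide +kernel) (by decide +kernel) ok5 ok10

noncomputable def t12 : Tre :=
  .I [0,1,0,0,0,0,0,1] t4 t11

theorem ok12 : chk K t12 r10 = true :=
  chk_I (e' := [1,-1,0,0,0,0,0,-1]) (by decide +kernel) (by decide +kernel) ok4 ok11

noncomputable def t13 : Tre :=
  .Q [0,0,-1,0,0,0,1,0,0,1,-1] (.p false [0,0,1] [1] (⟨0,[(21,0)]⟩,⟨0,[(20,0)]⟩) .k 1 (⟨0,[]⟩,⟨0,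
  []⟩) .k .k) t3 t12

theorem ok13 : chk K t13 l9 = true :=
  chk_Q (e' := [0,0,1,0,0,0,-1,0,0,-1,1]) (by decide +kernel) (by decide +kernel) ok3 ok12

noncomputable def t15 : Tre :=
  .Q [0,0,0,0,0,1,0,0,0,-1,1] (.ed false [0,1,1] .k) t13 t14

theorem ok15 : chk K t15 r8 = true :=
  chk_Q (e' := [0,0,0,0,0,-1,0,0,0,1,-1]) (by decide +kernel) (by decide +kernel) ok13 ok14

noncomputable def t16 : Tre :=
  .I [0,0,0,-1,0,0,0,1] t2 t15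

theorem ok16 : chk K t16 l7 = true :=
  chk_I (e' := [1,0,0,1,0,0,0,-1]) (by decide +kernel) (by decide +kernel) ok2 ok15

noncomputable def t26 : Tre :=
  .I [0,1,2,1,-1,0,0,1] t24 t25

theorem ok26 : chk K t26 r23 = true :=
  chk_I (e' := [1,-1,-2,-1,1,0,0,-1]) (by decide +kernel) (by decide +kernel) ok24 ok25

noncomputable def t27 : Tre :=
  .Q [0,1,0,-2,0,0,-1,-1,0,-1,1] (.p true [0,0,1] [1] (⟨0,[(27,0)]⟩,⟨0,[(26,0)]⟩) .k 1 (⟨0,[]⟩,⟨0,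
  []⟩) .k .k) t23 t26

theorem ok27 : chk K t27 r22 = true :=
  chk_Q (e' := [0,-1,0,2,0,0,1,1,0,1,-1]) (by decide +kernel) (by decide +kernel) ok23 ok26

noncomputable def t28 : Tre :=
  .I [0,0,3,3,-1] t22 t27

theorem ok28 : chk K t28 r21 = true :=
  chk_I (e' := [1,0,-3,-3,1]) (by decide +kernel) (by decide +kernel) ok22 ok27

noncomputable def t29 : Tre :=
  .Q [0,0,0,0,0,2,0,0,0,-1] (.pp true [-1,1]) t21 t28

theorem ok29 : chk K t29 r20 = true :=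
  chk_Q (e' := [0,0,0,0,0,-2,0,0,0,1]) (by decide +kernel) (by decide +kernel) ok21 ok28

noncomputable def t30 : Tre :=
  .Q [0,0,0,0,0,-1,0,0,0,1,-1] (.ed true [0,1,1] .k) t20 t29

theorem ok30 : chk K t30 r19 = true :=
  chk_Q (e' := [0,0,0,0,0,1,0,0,0,-1,1]) (by decide +kernel) (by decide +kernel) ok20 ok29

noncomputable def t31 : Tre :=
  .I [0,1,-1,-1,0,0,0,1] t19 t30

theorem ok31 : chk K t31 l18 = true :=
  chk_I (e' := [1,-1,1,1,0,0,0,-1]) (by decide +kernel) (by decide +kernel) ok19 ok30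

noncomputable def t33 : Tre :=
  .Q [0,0,0,0,0,0,-1,0,0,-1,1] (.p true [0,0,1] [1] (⟨0,[(22,0)]⟩,⟨0,[(21,0)]⟩) .k 1 (⟨0,[]⟩,⟨0,
  []⟩) .k .k) t31 t32

theorem ok33 : chk K t33 r17 = true :=
  chk_Q (e' := [0,0,0,0,0,0,1,0,0,1,-1]) (by decide +kernel) (by decide +kernel) ok31 ok32

noncomputable def t34 : Tre :=
  .Q [0,0,0,1,0,0,1,0,0,1,-1] (.p false [0,0,1] [1] (⟨0,[(21,0)]⟩,⟨0,[(20,0)]⟩) .k 1 (⟨0,[]⟩,⟨0,
  []⟩) .k .k) t18 t33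

theorem ok34 : chk K t34 r16 = true :=
  chk_Q (e' := [0,0,0,-1,0,0,-1,0,0,-1,1]) (by decide +kernel) (by decide +kernel) ok18 ok33

noncomputable def t35 : Tre :=
  .Q [0,0,0,0,0,1,0,0,0,0,-1] (.ed true [1,-1,1] .k) t17 t34

theorem ok35 : chk K t35 l15 = true :=
  chk_Q (e' := [0,0,0,0,0,-1,0,0,0,0,1]) (by decide +kernel) (by decide +kernel) ok17 ok34

noncomputable def t37 : Tre :=
  .I [0,0,1,1,0,0,0,-1] t35 t36

theorem ok37 : chk K t37 r7 = true :=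
  chk_I (e' := [1,0,-1,-1,0,0,0,1]) (by decide +kernel) (by decide +kernel) ok35 ok36

noncomputable def t38 : Tre :=
  .Q [0,0,0,0,0,0,1,0,0,0,-1] (.p false [0,0,1] [] (⟨0,[(18,0)]⟩,⟨0,[(17,0)]⟩) .k 0 (⟨0,[]⟩,⟨0,[]⟩)
  .k .k) t16 t37

theorem ok38 : chk K t38 l6 = true :=
  chk_Q (e' := [0,0,0,0,0,0,-1,0,0,0,1]) (by decide +kernel) (by decide +kernel) ok16 ok37

noncomputable def t40 : Tre :=
  .Q [0,0,0,2,0,0,0,0,0,1] (.pp false [-1,1]) t38 t39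

theorem ok40 : chk K t40 l5 = true :=
  chk_Q (e' := [0,0,0,-2,0,0,0,0,0,-1]) (by decide +kernel) (by decide +kernel) ok38 ok39

noncomputable def t42 : Tre :=
  .I [1,0,1,1,0,0,0,-1] t40 t41

theorem ok42 : chk K t42 l4 = true :=
  chk_I (e' := [0,0,-1,-1,0,0,0,1]) (by decide +kernel) (by decide +kernel) ok40 ok41

noncomputable def t53 : Tre :=
  .Q [0,-1,0,1,0,0,1,1,0,1,-1] (.p false [0,0,1] [1] (⟨0,[(27,0)]⟩,⟨0,[(26,0)]⟩) .k 1 (⟨0,[]⟩,⟨0,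
  []⟩) .k .k) t51 t52

theorem ok53 : chk K t53 r35 = true :=
  chk_Q (e' := [0,1,0,-1,0,0,-1,-1,0,-1,1]) (by decide +kernel) (by decide +kernel) ok51 ok52

noncomputable def t54 : Tre :=
  .Q [0,0,1,0,-1,0,2,0,0,1,-2] (.p false [0,0,1] [1,0,-1] (⟨0,[(26,0)]⟩,⟨0,[(25,0)]⟩) .k 2 (⟨0,[(25,
  0)]⟩,⟨0,[(26,0)]⟩) .k (.r (-1) ⟨0,[(15,0),(5,0),(2,0),(8,0)]⟩ ⟨0,[(3,1)]⟩)) t50 t53

theorem ok54 : chk K t54 r34 = true :=
  chk_Q (e' := [0,0,-1,0,1,0,-2,0,0,-1,2]) (by decide +kernel) (by decide +kernel) ok50 ok53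

noncomputable def t55 : Tre :=
  .Q [0,0,0,0,0,1,0,0,0,0,-1] (.ed true [1,-1,1] .k) t49 t54

theorem ok55 : chk K t55 r33 = true :=
  chk_Q (e' := [0,0,0,0,0,-1,0,0,0,0,1]) (by decide +kernel) (by decide +kernel) ok49 ok54

noncomputable def t56 : Tre :=
  .I [0,1,0,0,0,0,0,1] t48 t55

theorem ok56 : chk K t56 l32 = true :=
  chk_I (e' := [1,-1,0,0,0,0,0,-1]) (by decide +kernel) (by decide +kernel) ok48 ok55

noncomputable def t58 : Tre :=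
  .Q [0,0,1,0,0,0,-1,0,0,-1,1] (.p true [0,0,1] [1] (⟨0,[(23,0)]⟩,⟨0,[(22,0)]⟩) .k 1 (⟨0,[]⟩,⟨0,
  []⟩) .k .k) t56 t57

theorem ok58 : chk K t58 r31 = true :=
  chk_Q (e' := [0,0,-1,0,0,0,1,0,0,1,-1]) (by decide +kernel) (by decide +kernel) ok56 ok57

noncomputable def t59 : Tre :=
  .I [1,0,0,0,0,0,0,1] t47 t58

theorem ok59 : chk K t59 l30 = true :=
  chk_I (e' := [0,0,0,0,0,0,0,-1]) (by decide +kernel) (by decide +kernel) ok47 ok58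

noncomputable def t61 : Tre :=
  .Q [0,0,1,-1,0,0,-1,0,0,-1,1] (.p true [0,0,1] [1] (⟨0,[(21,0)]⟩,⟨0,[(20,0)]⟩) .k 1 (⟨0,[]⟩,⟨0,
  []⟩) .k .k) t59 t60

theorem ok61 : chk K t61 r29 = true :=
  chk_Q (e' := [0,0,-1,1,0,0,1,0,0,1,-1]) (by decide +kernel) (by decide +kernel) ok59 ok60

noncomputable def t62 : Tre :=
  .Q [0,0,0,-1,0,0,-1,-1,0,0,1] (.p true [0,0,1] [] (⟨0,[(20,0)]⟩,⟨0,[(19,0)]⟩) .k 0 (⟨0,[]⟩,⟨0,
  []⟩) .k .k) t46 t61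

theorem ok62 : chk K t62 r28 = true :=
  chk_Q (e' := [0,0,0,1,0,0,1,1,0,0,-1]) (by decide +kernel) (by decide +kernel) ok46 ok61

noncomputable def t63 : Tre :=
  .Q [0,0,0,0,0,2,0,0,0,-1,1] (.p true [0,0,1] [1] (⟨0,[(19,0)]⟩,⟨0,[(18,0)]⟩) .k 1 (⟨0,[]⟩,⟨0,[]⟩)
  .k .k) t45 t62

theorem ok63 : chk K t63 r27 = true :=
  chk_Q (e' := [0,0,0,0,0,-2,0,0,0,1,-1]) (by decide +kernel) (by decide +kernel) ok45 ok62

noncomputable def t64 : Tre :=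
  .Q [0,0,0,0,0,1,0,0,0,-1,1] (.ed false [0,1,1] .k) t44 t63

theorem ok64 : chk K t64 r26 = true :=
  chk_Q (e' := [0,0,0,0,0,-1,0,0,0,1,-1]) (by decide +kernel) (by decide +kernel) ok44 ok63

noncomputable def t65 : Tre :=
  .Q [0,0,0,0,0,0,-1,-1,0,0,1] (.p true [0,0,1] [] (⟨0,[(17,0)]⟩,⟨0,[(16,0)]⟩) .k 0 (⟨0,[]⟩,⟨0,[]⟩)
  .k .k) t43 t64

theorem ok65 : chk K t65 l25 = true :=
  chk_Q (e' := [0,0,0,0,0,0,1,1,0,0,-1]) (by decide +kernel) (by decide +kernel) ok43 ok64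

noncomputable def t67 : Tre :=
  .I [1,0,0,0,0,0,0,-1] t65 t66

theorem ok67 : chk K t67 r4 = true :=
  chk_I (e' := [0,0,0,0,0,0,0,1]) (by decide +kernel) (by decide +kernel) ok65 ok66

noncomputable def t68 : Tre :=
  .Q [0,-1,0,-1,0,0,1,1,0,0,-1] (.p false [0,0,1] [] (⟨0,[(15,0)]⟩,⟨0,[(14,0)]⟩) .k 0 (⟨0,[]⟩,⟨0,
  []⟩) .k .k) t42 t67

theorem ok68 : chk K t68 r3 = true :=
  chk_Q (e' := [0,1,0,1,0,0,-1,-1,0,0,1]) (by decide +kernel) (by decide +kernel) ok42 ok67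

noncomputable def t69 : Tre :=
  .Q [0,-1,0,1,0,0,0,0,0,1] (.pp false [-1,1]) t1 t68

theorem ok69 : chk K t69 l2 = true :=
  chk_Q (e' := [0,1,0,-1,0,0,0,0,0,-1]) (by decide +kernel) (by decide +kernel) ok1 ok68

noncomputable def t72 : Tre :=
  .Q [0,0,0,0,0,-1,0,0,0,0,1] (.ed false [1,-1,1] .k) t70 t71

theorem ok72 : chk K t72 l40 = true :=
  chk_Q (e' := [0,0,0,0,0,1,0,0,0,0,-1]) (by decide +kernel) (by decide +kernel) ok70 ok71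

noncomputable def t74 : Tre :=
  .Q [0,0,1,-1,0,0,-1,0,0,-1,1] (.p true [0,0,1] [1] (⟨0,[(17,0)]⟩,⟨0,[(16,0)]⟩) .k 1 (⟨0,[]⟩,⟨0,
  []⟩) .k .k) t72 t73

theorem ok74 : chk K t74 l39 = true :=
  chk_Q (e' := [0,0,-1,1,0,0,1,0,0,1,-1]) (by decide +kernel) (by decide +kernel) ok72 ok73

noncomputable def t76 : Tre :=
  .I [0,0,1,1,0,0,0,-1] t74 t75

theorem ok76 : chk K t76 l38 = true :=
  chk_I (e' := [1,0,-1,-1,0,0,0,1]) (by decide +kernel) (by decide +kernel) ok74 ok75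

noncomputable def t86 : Tre :=
  .I [1,1,0,0,0,0,0,1] t84 t85

theorem ok86 : chk K t86 l53 = true :=
  chk_I (e' := [0,-1,0,0,0,0,0,-1]) (by decide +kernel) (by decide +kernel) ok84 ok85

noncomputable def t88 : Tre :=
  .Q [0,1,0,1,0,0,-1,-1,0,0,1] (.p true [0,0,1] [] (⟨0,[(27,0)]⟩,⟨0,[(26,0)]⟩) .k 0 (⟨0,[]⟩,⟨0,[]⟩)
  .k .k) t86 t87

theorem ok88 : chk K t88 r52 = true :=
  chk_Q (e' := [0,-1,0,-1,0,0,1,1,0,0,-1]) (by decide +kernel) (by decide +kernel) ok86 ok87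

noncomputable def t89 : Tre :=
  .Q [0,0,0,0,0,2,0,0,0,-1,1] (.p true [0,0,1] [1] (⟨0,[(26,0)]⟩,⟨0,[(25,0)]⟩) .k 1 (⟨0,[]⟩,⟨0,[]⟩)
  .k .k) t83 t88

theorem ok89 : chk K t89 r51 = true :=
  chk_Q (e' := [0,0,0,0,0,-2,0,0,0,1,-1]) (by decide +kernel) (by decide +kernel) ok83 ok88

noncomputable def t90 : Tre :=
  .Q [0,0,0,-1,0,0,-1,-1,0,0,1] (.p true [0,0,1] [] (⟨0,[(25,0)]⟩,⟨0,[(24,0)]⟩) .k 0 (⟨0,[]⟩,⟨0,
  []⟩) .k .k) t82 t89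

theorem ok90 : chk K t90 r50 = true :=
  chk_Q (e' := [0,0,0,1,0,0,1,1,0,0,-1]) (by decide +kernel) (by decide +kernel) ok82 ok89

noncomputable def t91 : Tre :=
  .Q [0,0,0,0,0,0,-1,-1,0,0,1] (.p true [0,0,1] [] (⟨0,[(24,0)]⟩,⟨0,[(23,0)]⟩) .k 0 (⟨0,[]⟩,⟨0,[]⟩)
  .k .k) t81 t90

theorem ok91 : chk K t91 l49 = true :=
  chk_Q (e' := [0,0,0,0,0,0,1,1,0,0,-1]) (by decide +kernel) (by decide +kernel) ok81 ok90

noncomputable def t93 : Tre :=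
  .Q [0,0,0,-1,0,0,1,1,0,0,-1] (.p false [0,0,1] [] (⟨0,[(23,0)]⟩,⟨0,[(22,0)]⟩) .k 0 (⟨0,[]⟩,⟨0,
  []⟩) .k .k) t91 t92

theorem ok93 : chk K t93 l48 = true :=
  chk_Q (e' := [0,0,0,1,0,0,-1,-1,0,0,1]) (by decide +kernel) (by decide +kernel) ok91 ok92

noncomputable def t95 : Tre :=
  .I [0,0,0,1,0,0,0,-1] t93 t94

theorem ok95 : chk K t95 r47 = true :=
  chk_I (e' := [1,0,0,-1,0,0,0,1]) (by decide +kernel) (by decide +kernel) ok93 ok94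

noncomputable def t96 : Tre :=
  .Q [0,0,0,-1,0,0,-1,0,0,0,1] (.p true [0,0,1] [] (⟨0,[(21,0)]⟩,⟨0,[(20,0)]⟩) .k 0 (⟨0,[]⟩,⟨0,[]⟩)
  .k .k) t80 t95

theorem ok96 : chk K t96 r46 = true :=
  chk_Q (e' := [0,0,0,1,0,0,1,0,0,0,-1]) (by decide +kernel) (by decide +kernel) ok80 ok95

noncomputable def t97 : Tre :=
  .Q [0,-1,0,-1,0,0,-1,-1,0,0,1] (.p true [0,0,1] [] (⟨0,[(20,0)]⟩,⟨0,[(19,0)]⟩) .k 0 (⟨0,[]⟩,⟨0,
  []⟩) .k .k) t79 t96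

theorem ok97 : chk K t97 r45 = true :=
  chk_Q (e' := [0,1,0,1,0,0,1,1,0,0,-1]) (by decide +kernel) (by decide +kernel) ok79 ok96

noncomputable def t98 : Tre :=
  .Q [0,0,-1,0,0,0,1,0,0,1,-1] (.p false [0,0,1] [1] (⟨0,[(19,0)]⟩,⟨0,[(18,0)]⟩) .k 1 (⟨0,[]⟩,⟨0,
  []⟩) .k .k) t78 t97

theorem ok98 : chk K t98 l44 = true :=
  chk_Q (e' := [0,0,1,0,0,0,-1,0,0,-1,1]) (by decide +kernel) (by decide +kernel) ok78 ok97

noncomputable def t100 : Tre :=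
  .Q [0,0,0,0,0,0,1,0,0,0,-1] (.p false [0,0,1] [] (⟨0,[(18,0)]⟩,⟨0,[(17,0)]⟩) .k 0 (⟨0,[]⟩,⟨0,[]⟩)
  .k .k) t98 t99

theorem ok100 : chk K t100 r43 = true :=
  chk_Q (e' := [0,0,0,0,0,0,-1,0,0,0,1]) (by decide +kernel) (by decide +kernel) ok98 ok99

noncomputable def t101 : Tre :=
  .Q [0,0,-1,1,0,0,1,0,0,1,-1] (.p false [0,0,1] [1] (⟨0,[(17,0)]⟩,⟨0,[(16,0)]⟩) .k 1 (⟨0,[]⟩,⟨0,
  []⟩) .k .k) t77 t100

theorem ok101 : chk K t101 l42 = true :=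
  chk_Q (e' := [0,0,1,-1,0,0,-1,0,0,-1,1]) (by decide +kernel) (by decide +kernel) ok77 ok100

noncomputable def t112 : Tre :=
  .I [0,0,3,3,-1] t110 t111

theorem ok112 : chk K t112 r63 = true :=
  chk_I (e' := [1,0,-3,-3,1]) (by decide +kernel) (by decide +kernel) ok110 ok111

noncomputable def t113 : Tre :=
  .I [0,0,1,1,0,0,0,2] t109 t112

theorem ok113 : chk K t113 r62 = true :=
  chk_I (e' := [1,0,-1,-1,0,0,0,-2]) (by decide +kernel) (by decide +kernel) ok109 ok112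

noncomputable def t114 : Tre :=
  .Q [0,-1,1,1,0,0,0,0,-1,0,0,1] (.p true [0,0,0,0,1] [] (⟨0,[(18,0)]⟩,⟨0,[(17,0)]⟩) .k 0 (⟨0,[]⟩,
  ⟨0,[]⟩) .k .k) t108 t113

theorem ok114 : chk K t114 r61 = true :=
  chk_Q (e' := [0,1,-1,-1,0,0,0,0,1,0,0,-1]) (by decide +kernel) (by decide +kernel) ok108 ok113

noncomputable def t115 : Tre :=
  .Q [0,0,0,0,0,1,0,0,0,0,-1] (.ed true [1,-1,1] .k) t107 t114

theorem ok115 : chk K t115 r60 = true :=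
  chk_Q (e' := [0,0,0,0,0,-1,0,0,0,0,1]) (by decide +kernel) (by decide +kernel) ok107 ok114

noncomputable def t116 : Tre :=
  .Q [0,1,0,1,0,0,-1,-1,0,0,1] (.p true [0,0,1] [] (⟨0,[(22,0)]⟩,⟨0,[(21,0)]⟩) .k 0 (⟨0,[]⟩,⟨0,[]⟩)
  .k .k) t106 t115

theorem ok116 : chk K t116 r59 = true :=
  chk_Q (e' := [0,-1,0,-1,0,0,1,1,0,0,-1]) (by decide +kernel) (by decide +kernel) ok106 ok115

noncomputable def t117 : Tre :=
  .Q [0,0,0,1,0,0,-1,-1,0,0,1] (.p true [0,0,1] [] (⟨0,[(21,0)]⟩,⟨0,[(20,0)]⟩) .k 0 (⟨0,[]⟩,⟨0,[]⟩)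
  .k .k) t105 t116

theorem ok117 : chk K t117 r58 = true :=
  chk_Q (e' := [0,0,0,-1,0,0,1,1,0,0,-1]) (by decide +kernel) (by decide +kernel) ok105 ok116

noncomputable def t118 : Tre :=
  .I [1,1,0,0,0,0,0,1] t104 t117

theorem ok118 : chk K t118 r57 = true :=
  chk_I (e' := [0,-1,0,0,0,0,0,-1]) (by decide +kernel) (by decide +kernel) ok104 ok117

noncomputable def t119 : Tre :=
  .Q [0,1,0,-1,0,0,-1,-1,0,-1,1] (.p true [0,0,1] [1] (⟨0,[(19,0)]⟩,⟨0,[(18,0)]⟩) .k 1 (⟨0,[]⟩,⟨0,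
  []⟩) .k .k) t103 t118

theorem ok119 : chk K t119 l56 = true :=
  chk_Q (e' := [0,-1,0,1,0,0,1,1,0,1,-1]) (by decide +kernel) (by decide +kernel) ok103 ok118

noncomputable def t121 : Tre :=
  .Q [0,0,1,0,0,0,-1,0,0,-1,1] (.p true [0,0,1] [1] (⟨0,[(18,0)]⟩,⟨0,[(17,0)]⟩) .k 1 (⟨0,[]⟩,⟨0,
  []⟩) .k .k) t119 t120

theorem ok121 : chk K t121 r55 = true :=
  chk_Q (e' := [0,0,-1,0,0,0,1,0,0,1,-1]) (by decide +kernel) (by decide +kernel) ok119 ok120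

noncomputable def t122 : Tre :=
  .Q [0,0,-1,1,0,0,1,0,0,1,-1] (.p false [0,0,1] [1] (⟨0,[(17,0)]⟩,⟨0,[(16,0)]⟩) .k 1 (⟨0,[]⟩,⟨0,
  []⟩) .k .k) t102 t121

theorem ok122 : chk K t122 r42 = true :=
  chk_Q (e' := [0,0,1,-1,0,0,-1,0,0,-1,1]) (by decide +kernel) (by decide +kernel) ok102 ok121

noncomputable def t123 : Tre :=
  .Q [0,0,0,0,0,-1,0,0,0,1,-1] (.ed true [0,1,1] .k) t101 t122

theorem ok123 : chk K t123 r38 = true :=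
  chk_Q (e' := [0,0,0,0,0,1,0,0,0,-1,1]) (by decide +kernel) (by decide +kernel) ok101 ok122

noncomputable def t124 : Tre :=
  .I [0,0,0,-1,0,0,0,1] t76 t123

theorem ok124 : chk K t124 l37 = true :=
  chk_I (e' := [1,0,0,1,0,0,0,-1]) (by decide +kernel) (by decide +kernel) ok76 ok123

noncomputable def t126 : Tre :=
  .I [1,0,1,1,0,0,0,-1] t124 t125

theorem ok126 : chk K t126 r2 = true :=
  chk_I (e' := [0,0,-1,-1,0,0,0,1]) (by decide +kernel) (by decide +kernel) ok124 ok125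

noncomputable def t127 : Tre :=
  .Q [0,1,0,-2,0,0,0,0,0,-1] (.pp true [-1,1]) t69 t126

theorem ok127 : chk K t127 r1 = true :=
  chk_Q (e' := [0,-1,0,2,0,0,0,0,0,1]) (by decide +kernel) (by decide +kernel) ok69 ok126

noncomputable def t128 : Tre :=
  .Q [0,0,-1,0,0,0,0,0,0,1] (.pp false [-1,1]) t0 t127

theorem ok128 : chk K t128 l0 = true :=
  chk_Q (e' := [0,0,1,0,0,0,0,0,0,-1]) (by decide +kernel) (by decide +kernel) ok0 ok127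

noncomputable def t133 : Tre :=
  .Q [0,0,0,0,0,0,-1,-1,0,0,1] (.p true [0,0,1] [] (⟨0,[(14,0)]⟩,⟨0,[(13,0)]⟩) .k 0 (⟨0,[]⟩,⟨0,[]⟩)
  .k .k) t131 t132

theorem ok133 : chk K t133 r66 = true :=
  chk_Q (e' := [0,0,0,0,0,0,1,1,0,0,-1]) (by decide +kernel) (by decide +kernel) ok131 ok132

noncomputable def t134 : Tre :=
  .I [1,-1,-1,-1,0,0,0,1] t130 t133

theorem ok134 : chk K t134 r65 = true :=
  chk_I (e' := [0,1,1,1,0,0,0,-1]) (by decide +kernel) (by decide +kernel) ok130 ok133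

noncomputable def t135 : Tre :=
  .Q [0,0,2,0,0,0,0,0,0,-1] (.pp true [-1,1]) t129 t134

theorem ok135 : chk K t135 r0 = true :=
  chk_Q (e' := [0,0,-2,0,0,0,0,0,0,1]) (by decide +kernel) (by decide +kernel) ok129 ok134

noncomputable def t136 : Tre :=
  .Q [0,0,1,-1,0,0,0,0,0,-1] (.pp true [-1,1]) t128 t135

theorem ok136 : chk K t136 base = true :=
  chk_Q (e' := [0,0,-1,1,0,0,0,0,0,1]) (by decide +kernel) (by decide +kernel) ok128 ok135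

theorem closed {p a b c J l q : ℤ} {D dl : ℝ} {Cl : ℤ → ℤ → ℤ → ℤ → ℝ → Prop}
    (W : World p a b c J (-1) l q D dl Cl) (g : G0 p a b c J D)
    {N X R : ℤ} {I : ℝ} (hk : KCl p l Cl N X R I) (kz : KF a b D (X + (-1 : ℤ) * I) (X + (-1 : ℤ) * I + R) I)
    {Ne Xe : ℤ} {Ie : ℝ} (he : EFac p (-1) D Cl 1 Ne Xe Ie)
    (hkf : ∀ kf ∈ (kfM (-1) [0,0,0,0,0,0,1,0,0,0,-1] [0,0,0,0,0,0,1,1,0,0,-1] true), KOk p l Cl (-1)
      (xv [1, a, b, c, p, J, X, R, Xe] [D, I, Ie]) N kf)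
    (h0 : 1 ≤ -(c : ℝ))
    (h1 : 1 ≤ 1 - 2 * (a : ℝ) + (b : ℝ))
    (h2 : 0 < -(a : ℝ) + (X : ℝ) + (R : ℝ) + D - I)
    (h3 : 1 ≤ -(a : ℝ) + (b : ℝ) + (R : ℝ)) : False := by
  have g1 := g.a2
  have g2 := g.b2
  have g3 := g.pa
  have g4 := g.pb
  have g5 := g.J1
  have g6 := g.JD
  have g7 := g.D2
  have g8 := g.ca
  have g9 := g.ca'
  have k1 := kz.I0
  have k2 := kz.ID
  have k3 := kz.z1
  have k4 := kz.z2
  have k5 := kz.s1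
  have k6 := kz.s2
  have e1 := he.I0
  have e2 := he.ID
  have e3 := he.x0
  have e4 := he.xp
  push_cast at *
  refine (val_E W.toBase hk he (row := [1]) (by simp) (by simp) (kfM (-1) [0,0,0,0,0,0,1,0,0,0,-1] [0,0,0,0,0,0,1,1,0,0,-1] true)).sound W rfl (Nk := N)
    (fun kf _ _ => ⟨_, rfl⟩) hkf ?_ ok136
  · simp only [base, List.forall_mem_cons, List.not_mem_nil, false_imp_iff, implies_true,
      and_true, hld, xv, evg_cons, evg_nil, List.map_cons, List.map_nil, List.cons_append,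
      List.nil_append, if_true, if_false, Bool.false_eq_true]
    push_cast
    refine ⟨?_, ?_, ?_, ?_, ?_, ?_, ?_, ?_, ?_, ?_, ?_, ?_, ?_, ?_, ?_, ?_, ?_, ?_, ?_, ?_, ?_, ?_⟩ <;> linarith

end Helper55.CB.D_m1_m1
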