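import Pool.Agent.Helper55.CB.V_m1_m1
import Pool.Agent.Helper55.CB.C_m1_m1
import Pool.Agent.Helper55.CB.D_m1_m1
import Pool.Agent.Helper25.KW.S1I
import Pool.Agent.Helper55.TR.El

set_option autoImplicit false
set_option linter.all false

namespace Helper55.CB

open Helper25.KG Helper25.KW Helper55.KE Helper11.CT

theorem a_V_m1_m1 {p a b c J l q : ℤ} {D dl : ℝ} {Cl : ℤ → ℤ → ℤ → ℤ → ℝ → Prop}
    (W : World p a b c J (-1) l q D dl Cl) (hc : -a < c) (hA : Aux p a b (-1) D Cl)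
    {N X R : ℤ} {I : ℝ} (hK : KGF p a b (-1) D (P1 l p) Cl N X R I)
    (hM : KMin p a b (-1) (P1 l p) Cl N (b + (-1 : ℤ) * (X + (-1 : ℤ) * I)))
    (h0 : 1 ≤ -(c : ℝ))
    (h1 : 1 ≤ 1 - 2 * (a : ℝ) + (b : ℝ))
    (h2 : 0 < -(b : ℝ) + (X : ℝ) + D - I)
    (h3 : 1 ≤ (a : ℝ) - (b : ℝ) - (R : ℝ)) : False := by
  have kz := KF.of hK
  obtain ⟨Ne, Xe, Ie, he⟩ := hA.ecl 1 (by
    intro h
    have h2 := W.ha
    have h3 := W.h2a
    have h1 := Int.le_of_dvd (by omega) h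
    omega)
  exact Helper55.CB.V_m1_m1.closed W (G0.of W.toBase hc) (KCl.of hK) kz he
    (kok_M (R := R) hM rfl (by simp [xv] <;> ring) (by simp [xv] <;> ring) (by simp [xv] <;> ring) (by simp [xv] <;> ring) (by simp [xv] <;> ring) (by simp [xv] <;> ring))
    h0 h1 h2 h3

theorem a_C_m1_m1 {p a b c J l q : ℤ} {D dl : ℝ} {Cl : ℤ → ℤ → ℤ → ℤ → ℝ → Prop}
    (W : World p a b c J (-1) l q D dl Cl) (hc : -a < c) (hA : Aux p a b (-1) D Cl)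
    {N X R : ℤ} {I : ℝ} (hK : KGF p a b (-1) D (P1 l p) Cl N X R I)
    (hM : KMin p a b (-1) (P1 l p) Cl N (b + (-1 : ℤ) * (X + (-1 : ℤ) * I)))
    (h0 : 1 ≤ -(c : ℝ))
    (h1 : 1 ≤ 1 - 2 * (a : ℝ) + (b : ℝ))
    (h2 : 0 < -(b : ℝ) + (X : ℝ) + D - I)
    (h3 : 1 ≤ 1 + (a : ℝ) - (b : ℝ) - (R : ℝ))
    (h4 : 1 ≤ 1 - (a : ℝ) + (b : ℝ) + (R : ℝ)) : False := by
  have kz := KF.of hK
  exact Helper55.CB.C_m1_m1.closed W (G0.of W.toBase hc) (KCl.of hK) kz 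
    (kok_M (R := R) hM rfl (by simp [xv] <;> ring) (by simp [xv] <;> ring) (by simp [xv] <;> ring) (by simp [xv] <;> ring) (by simp [xv] <;> ring) (by simp [xv] <;> ring))
    h0 h1 h2 h3 h4

theorem a_D_m1_m1 {p a b c J l q : ℤ} {D dl : ℝ} {Cl : ℤ → ℤ → ℤ → ℤ → ℝ → Prop}
    (W : World p a b c J (-1) l q D dl Cl) (hc : -a < c) (hA : Aux p a b (-1) D Cl)
    {N X R : ℤ} {I : ℝ} (hK : KGF p a b (-1) D (P1 l p) Cl N X R I)
    (hM : KMin p a b (-1) (P1 l p) Cl N (a + (-1 : ℤ) * (X + (-1 : ℤ) * I + R)))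
    (h0 : 1 ≤ -(c : ℝ))
    (h1 : 1 ≤ 1 - 2 * (a : ℝ) + (b : ℝ))
    (h2 : 0 < -(a : ℝ) + (X : ℝ) + (R : ℝ) + D - I)
    (h3 : 1 ≤ -(a : ℝ) + (b : ℝ) + (R : ℝ)) : False := by
  have kz := KF.of hK
  obtain ⟨Ne, Xe, Ie, he⟩ := hA.ecl 1 (by
    intro h
    have h2 := W.ha
    have h3 := W.h2a
    have h1 := Int.le_of_dvd (by omega) h
    omega)
  exact Helper55.CB.D_m1_m1.closed W (G0.of W.toBase hc) (KCl.of hK) kz he
    (kok_M (R := R) hM rfl (by simp [xv] <;> ring) (by simp [xv] <;> ring) (by simp [xv] <;> ring) (by simp [xv] <;> ring) (by simp [xv] <;> ring) (by simp [xv] <;> ring))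
    h0 h1 h2 h3

end Helper55.CB
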